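import Mathlib

/-!
# GSC, section 3 of note 1871: arrays on a dyadic forest

`bes` is the Bessel inequality for the Haar coefficients, `l1` is the sum of the squares of the
Hoelder norms of the cells, from the recursion inequalities.
-/

set_option autoImplicit false
open Finset

namespace Pool.Agent.H95.GS3

/-- the average over one level -/
theorem sum_level {g G : ℕ → ℝ} (hg : ∀ k, g k = (G (2 * k) + G (2 * k + 1)) / 2) (m : ℕ) :
    ∑ k ∈ range m, g k = (∑ k ∈ range (2 * m), G k) / 2 := by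
  induction m with
  | zero => simp
  | succ m ih =>
    rw [sum_range_succ, ih, show 2 * (m + 1) = 2 * m + 1 + 1 by ring, sum_range_succ,
      sum_range_succ, hg m]
    ring

theorem sum_level' {G : ℕ → ℝ} (m : ℕ) :
    ∑ k ∈ range m, (G (2 * k) + G (2 * k + 1)) = ∑ k ∈ range (2 * m), G k := by
  induction m with
  | zero => simp
  | succ m ih =>
    rw [sum_range_succ, ih, show 2 * (m + 1) = 2 * m + 1 + 1 by ring, sum_range_succ,
      sum_range_succ]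
    ring

/-- total mass is preserved -/
theorem mass {q : ℕ → ℕ → ℝ} (hq : ∀ l k, q l k = (q (l + 1) (2 * k) + q (l + 1) (2 * k + 1)) / 2)
    (K0 l : ℕ) : ∑ k ∈ range (K0 * 2 ^ l), (1 / 2 : ℝ) ^ l * q l k = ∑ k ∈ range K0, q 0 k := by
  induction l with
  | zero => simp
  | succ l ih =>
    rw [← ih, ← mul_sum, ← mul_sum, sum_level (hq l) (K0 * 2 ^ l),
      show K0 * 2 ^ (l + 1) = 2 * (K0 * 2 ^ l) by ring]
    ring

/-- Bessel -/
theorem bes {f q : ℕ → ℕ → ℝ}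
    (hf : ∀ l k, f l k = (f (l + 1) (2 * k) + f (l + 1) (2 * k + 1)) / 2)
    (hq : ∀ l k, q l k = (q (l + 1) (2 * k) + q (l + 1) (2 * k + 1)) / 2)
    (hfq : ∀ l k, f l k ^ 2 ≤ q l k) (K0 L : ℕ) :
    ∑ l ∈ range L, ∑ k ∈ range (K0 * 2 ^ l),
      (1 / 2 : ℝ) ^ l * ((f (l + 1) (2 * k) - f (l + 1) (2 * k + 1)) / 2) ^ 2 ≤
      ∑ k ∈ range K0, (q 0 k - f 0 k ^ 2) := by
  have key : ∀ L, ∑ l ∈ range L, ∑ k ∈ range (K0 * 2 ^ l),
      (1 / 2 : ℝ) ^ l * ((f (l + 1) (2 * k) - f (l + 1) (2 * k + 1)) / 2) ^ 2 =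
      ∑ k ∈ range (K0 * 2 ^ L), (1 / 2 : ℝ) ^ L * f L k ^ 2 - ∑ k ∈ range K0, f 0 k ^ 2 := by
    intro L
    induction L with
    | zero => simp
    | succ L ih =>
      rw [sum_range_succ, ih]
      have h1 : ∑ k ∈ range (K0 * 2 ^ (L + 1)), (1 / 2 : ℝ) ^ (L + 1) * f (L + 1) k ^ 2 =
          ∑ k ∈ range (K0 * 2 ^ L), (1 / 2 : ℝ) ^ (L + 1) *
            (f (L + 1) (2 * k) ^ 2 + f (L + 1) (2 * k + 1) ^ 2) := by
        rw [← mul_sum, ← mul_sum, sum_level' (G := fun k => f (L + 1) k ^ 2),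
          show K0 * 2 ^ (L + 1) = 2 * (K0 * 2 ^ L) by ring]
      rw [h1]
      have h2 : ∀ k, (1 / 2 : ℝ) ^ (L + 1) * (f (L + 1) (2 * k) ^ 2 + f (L + 1) (2 * k + 1) ^ 2) =
          (1 / 2 : ℝ) ^ L * f L k ^ 2 +
          (1 / 2 : ℝ) ^ L * ((f (L + 1) (2 * k) - f (L + 1) (2 * k + 1)) / 2) ^ 2 := by
        intro k
        rw [hf L k]
        ring
      rw [sum_congr rfl (fun k _ => h2 k), sum_add_distrib]
      ring
  rw [key L, sum_sub_distrib, ← mass hq K0 L]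
  have := sum_le_sum (s := range (K0 * 2 ^ L)) (f := fun k => (1 / 2 : ℝ) ^ L * f L k ^ 2)
    (g := fun k => (1 / 2 : ℝ) ^ L * q L k) (fun k _ => by
      have := hfq L k
      gcongr)
  linarith

/-- absorption: one recursion -/
theorem absorb {X Δ E : ℕ → ℕ → ℝ} {κ2 s M A C : ℝ} {K0 L : ℕ} (hX0 : ∀ l k, 0 ≤ X l k)
    (hX : ∀ l k, X l k ≤ M) (hκ : 0 ≤ κ2)
    (hrec : ∀ l < L, ∀ k < K0 * 2 ^ l, X l k ≤ s * Δ l k + κ2 * (X (l + 1) (2 * k) + X (l + 1) (2 * k + 1)) +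
      C * (E (l + 1) (2 * k) + E (l + 1) (2 * k + 1)))
    (hA : ∑ l ∈ range L, ∑ k ∈ range (K0 * 2 ^ l), (1 / 2 : ℝ) ^ l *
      (s * Δ l k + C * (E (l + 1) (2 * k) + E (l + 1) (2 * k + 1))) ≤ A) :
    (1 - 2 * κ2) * ∑ l ∈ range L, ∑ k ∈ range (K0 * 2 ^ l), (1 / 2 : ℝ) ^ l * X l k ≤
      A + 2 * κ2 * (K0 * M) := by
  set S : ℕ → ℝ := fun l => ∑ k ∈ range (K0 * 2 ^ l), (1 / 2 : ℝ) ^ l * X l k with hS
  have h1 : ∀ l, ∑ k ∈ range (K0 * 2 ^ l), (1 / 2 : ℝ) ^ l *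
      (X (l + 1) (2 * k) + X (l + 1) (2 * k + 1)) = 2 * S (l + 1) := by
    intro l
    simp only [hS]
    rw [← mul_sum, ← mul_sum, sum_level' (G := fun k => X (l + 1) k),
      show K0 * 2 ^ (l + 1) = 2 * (K0 * 2 ^ l) by ring]
    ring
  have hS0 : ∀ l, 0 ≤ S l := fun l => sum_nonneg fun k _ => mul_nonneg (by positivity) (hX0 l k)
  have hSM : ∀ l, S l ≤ K0 * M := by
    intro l
    calc S l ≤ ∑ k ∈ range (K0 * 2 ^ l), (1 / 2 : ℝ) ^ l * M :=
          sum_le_sum fun k _ => mul_le_mul_of_nonneg_left (hX l k) (by positivity)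
      _ = K0 * M := by
          rw [sum_const, card_range, nsmul_eq_mul]
          push_cast
          have : (2 : ℝ) ^ l * (1 / 2) ^ l = 1 := by rw [← mul_pow]; norm_num
          calc (K0 : ℝ) * 2 ^ l * ((1 / 2) ^ l * M) = K0 * M * (2 ^ l * (1 / 2) ^ l) := by ring
            _ = K0 * M := by rw [this, mul_one]
  have h2 : ∑ l ∈ range L, S l ≤ A + κ2 * ∑ l ∈ range L, 2 * S (l + 1) := by
    calc ∑ l ∈ range L, S l ≤ ∑ l ∈ range L, (∑ k ∈ range (K0 * 2 ^ l), (1 / 2 : ℝ) ^ l *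
      (s * Δ l k + C * (E (l + 1) (2 * k) + E (l + 1) (2 * k + 1))) + κ2 * (2 * S (l + 1))) := by
          apply sum_le_sum
          intro l hl
          rw [← h1 l, mul_sum, ← sum_add_distrib]
          apply sum_le_sum
          intro k hk
          have := hrec l (mem_range.1 hl) k (mem_range.1 hk)
          have h3 : (0 : ℝ) ≤ (1 / 2) ^ l := by positivity
          have := mul_le_mul_of_nonneg_left this h3
          linarith
      _ ≤ _ := by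
          rw [sum_add_distrib, ← mul_sum]
          linarith
  have h3 : ∑ l ∈ range L, S (l + 1) ≤ ∑ l ∈ range L, S l + K0 * M := by
    have h4 := sum_range_succ' S L
    have h5 := sum_range_succ S L
    have h6 := hS0 0
    have h7 := hSM L
    linarith
  rw [← mul_sum] at h2
  nlinarith [h2, h3, hκ]


theorem sq_rec {x d κ u v : ℝ} (hx : 0 ≤ x) (_hd : 0 ≤ d) (hu : 0 ≤ u) (_hv : 0 ≤ v) (_hκ : 0 ≤ κ)
    (hκ2 : κ ^ 2 ≤ 3536 / 10000) (h : x ≤ d + κ * max u v) :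
    x ^ 2 ≤ 6 * d ^ 2 + 42432 / 100000 * (u ^ 2 + v ^ 2) := by
  have hm : 0 ≤ max u v := le_max_of_le_left hu
  have h1 : (max u v) ^ 2 ≤ u ^ 2 + v ^ 2 := by
    rcases max_cases u v with h | h <;> rw [h.1] <;> nlinarith
  have h2 : x ^ 2 ≤ (d + κ * max u v) ^ 2 := by gcongr
  have h3 : (d + κ * max u v) ^ 2 ≤ 6 * d ^ 2 + 6 / 5 * (κ * max u v) ^ 2 := by
    nlinarith [sq_nonneg (5 * d - κ * max u v)]
  have h4 : (κ * max u v) ^ 2 ≤ 3536 / 10000 * (u ^ 2 + v ^ 2) := by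
    calc (κ * max u v) ^ 2 = κ ^ 2 * (max u v) ^ 2 := by ring
      _ ≤ 3536 / 10000 * (u ^ 2 + v ^ 2) := by gcongr
  linarith

theorem sq_rec' {x d κ u v : ℝ} (hx : 0 ≤ x) (hu : 0 ≤ u)
    (hκ2 : κ ^ 2 ≤ 3536 / 10000) (h : x ≤ d + κ * max u v) :
    x ^ 2 ≤ 11 * d ^ 2 + 38896 / 100000 * (u ^ 2 + v ^ 2) := by
  have hm : 0 ≤ max u v := le_max_of_le_left hu
  have h1 : (max u v) ^ 2 ≤ u ^ 2 + v ^ 2 := by
    rcases max_cases u v with h | h <;> rw [h.1] <;> nlinarith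
  have h2 : x ^ 2 ≤ (d + κ * max u v) ^ 2 := by gcongr
  have h3 : (d + κ * max u v) ^ 2 ≤ 11 * d ^ 2 + 11 / 10 * (κ * max u v) ^ 2 := by
    nlinarith [sq_nonneg (10 * d - κ * max u v)]
  have h4 : (κ * max u v) ^ 2 ≤ 3536 / 10000 * (u ^ 2 + v ^ 2) := by
    calc (κ * max u v) ^ 2 = κ ^ 2 * (max u v) ^ 2 := by ring
      _ ≤ 3536 / 10000 * (u ^ 2 + v ^ 2) := by gcongr
  linarith

/-- (L1) in the form of arrays -/
theorem l1 {Δ D V : ℕ → ℕ → ℝ} {κ M B : ℝ} {K0 L : ℕ} (hκ : 0 ≤ κ) (hκ2 : κ ^ 2 ≤ 3536 / 10000)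
    (hD0 : ∀ l k, 0 ≤ D l k) (hV0 : ∀ l k, 0 ≤ V l k) (hΔ0 : ∀ l k, 0 ≤ Δ l k)
    (hDM : ∀ l k, D l k ^ 2 ≤ M) (hVM : ∀ l k, V l k ^ 2 ≤ M)
    (hD : ∀ l < L, ∀ k < K0 * 2 ^ l, D l k ≤ Δ l k + κ * max (D (l + 1) (2 * k)) (D (l + 1) (2 * k + 1)))
    (hV : ∀ l < L, ∀ k < K0 * 2 ^ l, V l k ≤ Δ l k + κ * max (max (V (l + 1) (2 * k)) (2 * D (l + 1) (2 * k)))
      (max (V (l + 1) (2 * k + 1)) (2 * D (l + 1) (2 * k + 1))))
    (hB : ∑ l ∈ range L, ∑ k ∈ range (K0 * 2 ^ l), (1 / 2 : ℝ) ^ l * Δ l k ^ 2 ≤ B) :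
    ∑ l ∈ range L, ∑ k ∈ range (K0 * 2 ^ l), (1 / 2 : ℝ) ^ l * V l k ^ 2 ≤
      700 * B + 200 * (K0 * M) := by
  have hM : 0 ≤ M := (sq_nonneg _).trans (hVM 0 0)
  have hKM : 0 ≤ K0 * M := by positivity
  have hB0 : 0 ≤ B := le_trans (sum_nonneg fun l _ => sum_nonneg fun k _ => by positivity) hB
  -- the sum of the squares of `D`
  have h1 := absorb (X := fun l k => D l k ^ 2) (Δ := fun l k => Δ l k ^ 2)
    (E := fun _ _ => 0) (κ2 := 42432 / 100000) (s := 6) (M := M) (A := 6 * B) (C := 0) (K0 := K0)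
    (L := L) (fun l k => sq_nonneg _) hDM (by norm_num)
    (fun l hl k hk => by
      have := sq_rec (hD0 l k) (hΔ0 l k) (hD0 (l + 1) (2 * k)) (hD0 (l + 1) (2 * k + 1)) hκ hκ2
        (hD l hl k hk)
      simpa using this)
    (by
      simp only [mul_zero, add_zero]
      calc _ = 6 * ∑ l ∈ range L, ∑ k ∈ range (K0 * 2 ^ l), (1 / 2 : ℝ) ^ l * Δ l k ^ 2 := by
            rw [mul_sum]
            refine sum_congr rfl fun l _ => ?_
            rw [mul_sum]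
            refine sum_congr rfl fun k _ => by ring
        _ ≤ 6 * B := by gcongr)
  set SD := ∑ l ∈ range L, ∑ k ∈ range (K0 * 2 ^ l), (1 / 2 : ℝ) ^ l * D l k ^ 2 with hSD
  have hSD0 : SD ≤ 40 * B + 6 * (K0 * M) := by nlinarith
  -- shifted sums
  have hsh : ∀ {Y : ℕ → ℕ → ℝ}, (∀ l k, 0 ≤ Y l k) → (∀ l k, Y l k ≤ M) →
      ∑ l ∈ range L, ∑ k ∈ range (K0 * 2 ^ l), (1 / 2 : ℝ) ^ l *
        (Y (l + 1) (2 * k) + Y (l + 1) (2 * k + 1)) ≤
      2 * (∑ l ∈ range L, ∑ k ∈ range (K0 * 2 ^ l), (1 / 2 : ℝ) ^ l * Y l k + K0 * M) := by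
    intro Y hY0 hYM
    set S : ℕ → ℝ := fun l => ∑ k ∈ range (K0 * 2 ^ l), (1 / 2 : ℝ) ^ l * Y l k with hS
    have h1 : ∀ l, ∑ k ∈ range (K0 * 2 ^ l), (1 / 2 : ℝ) ^ l *
        (Y (l + 1) (2 * k) + Y (l + 1) (2 * k + 1)) = 2 * S (l + 1) := by
      intro l
      simp only [hS]
      rw [← mul_sum, ← mul_sum, sum_level' (G := fun k => Y (l + 1) k),
        show K0 * 2 ^ (l + 1) = 2 * (K0 * 2 ^ l) by ring]
      ring
    have hS0 : 0 ≤ S 0 := sum_nonneg fun k _ => mul_nonneg (by positivity) (hY0 0 k)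
    have hSM : S L ≤ K0 * M := by
      calc S L ≤ ∑ k ∈ range (K0 * 2 ^ L), (1 / 2 : ℝ) ^ L * M :=
            sum_le_sum fun k _ => mul_le_mul_of_nonneg_left (hYM L k) (by positivity)
        _ = K0 * M := by
            rw [sum_const, card_range, nsmul_eq_mul]
            push_cast
            have : (2 : ℝ) ^ L * (1 / 2) ^ L = 1 := by rw [← mul_pow]; norm_num
            calc (K0 : ℝ) * 2 ^ L * ((1 / 2) ^ L * M) = K0 * M * (2 ^ L * (1 / 2) ^ L) := by ring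
              _ = K0 * M := by rw [this, mul_one]
    rw [sum_congr rfl (fun l _ => h1 l), ← mul_sum]
    have h4 := sum_range_succ' S L
    have h5 := sum_range_succ S L
    linarith
  have h2 := hsh (Y := fun l k => D l k ^ 2) (fun l k => sq_nonneg _) hDM
  have h3 := absorb (X := fun l k => V l k ^ 2) (Δ := fun l k => Δ l k ^ 2)
    (E := fun l k => D l k ^ 2) (κ2 := 38896 / 100000) (s := 11) (M := M)
    (A := 11 * B + 4 * (38896 / 100000) * (2 * (SD + K0 * M))) (C := 4 * (38896 / 100000))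
    (K0 := K0) (L := L) (fun l k => sq_nonneg _) hVM (by norm_num)
    (fun l hl k hk => by
      have := sq_rec' (hV0 l k)
        (le_max_of_le_left (hV0 (l + 1) (2 * k)) : 0 ≤ max (V (l + 1) (2 * k)) (2 * D (l + 1) (2 * k)))
        hκ2
        (hV l hl k hk)
      have hmx : ∀ u v : ℝ, (max u (2 * v)) ^ 2 ≤ u ^ 2 + 4 * v ^ 2 := by
        intro u v
        rcases max_cases u (2 * v) with h | h <;> rw [h.1] <;> nlinarith [sq_nonneg u, sq_nonneg v]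
      have e1 := hmx (V (l + 1) (2 * k)) (D (l + 1) (2 * k))
      have e2 := hmx (V (l + 1) (2 * k + 1)) (D (l + 1) (2 * k + 1))
      linarith)
    (by
      have e1 : ∑ l ∈ range L, ∑ k ∈ range (K0 * 2 ^ l), (1 / 2 : ℝ) ^ l *
          (11 * Δ l k ^ 2 + 4 * (38896 / 100000) *
            (D (l + 1) (2 * k) ^ 2 + D (l + 1) (2 * k + 1) ^ 2)) =
          11 * (∑ l ∈ range L, ∑ k ∈ range (K0 * 2 ^ l), (1 / 2 : ℝ) ^ l * Δ l k ^ 2) +
          4 * (38896 / 100000) * ∑ l ∈ range L, ∑ k ∈ range (K0 * 2 ^ l), (1 / 2 : ℝ) ^ l *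
            (D (l + 1) (2 * k) ^ 2 + D (l + 1) (2 * k + 1) ^ 2) := by
        rw [mul_sum, mul_sum, ← sum_add_distrib]
        refine sum_congr rfl fun l _ => ?_
        rw [mul_sum, mul_sum, ← sum_add_distrib]
        refine sum_congr rfl fun k _ => by ring
      rw [e1]
      gcongr)
  nlinarith

end Pool.Agent.H95.GS3
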