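import Mathlib
import Pool.Agent.H66.GSC.Hr
import Pool.Agent.H95.GS3.Arr

/-!
# GSC, section 3 of note 1871: the Hoelder norms of the primitive on the cells, (L1)
-/

set_option autoImplicit false
open Set Filter Topology MeasureTheory

namespace Pool.Agent.H95.GS3

open Pool.Agent.H66.GSC

/-- all constants `W` of the Hoelder condition for the primitive of `a - m` on `[u, u + s]` -/
def WS (a : ℝ → ℝ) (u s m : ℝ) : Set ℝ :=
  {W | 0 ≤ W ∧ ∀ x ∈ Icc u (u + s), ∀ y ∈ Icc u (u + s),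
    |∫ z in x..y, (a z - m)| ≤ W * (s * hr (|y - x| / s))}

/-- the constants of the Hoelder condition for intervals with an end at an end of `[u, u + s]` -/
def ES (a : ℝ → ℝ) (u s m : ℝ) : Set ℝ :=
  {W | 0 ≤ W ∧ ∀ x ∈ Icc u (u + s),
    |∫ z in u..x, (a z - m)| ≤ W * (s * hr ((x - u) / s)) ∧
    |∫ z in x..(u + s), (a z - m)| ≤ W * (s * hr ((u + s - x) / s))}

/-- the optimal constant -/
noncomputable def VV (a : ℝ → ℝ) (u s m : ℝ) : ℝ := sInf (WS a u s m)

/-- the optimal constant for the intervals at the ends -/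
noncomputable def DD (a : ℝ → ℝ) (u s m : ℝ) : ℝ := sInf (ES a u s m)

theorem le_mul_sInf {S : Set ℝ} {b c : ℝ} (hc : 0 ≤ c) (hS : S.Nonempty)
    (h : ∀ W ∈ S, b ≤ W * c) : b ≤ sInf S * c := by
  rcases hc.eq_or_lt with h0 | h0
  · obtain ⟨W, hW⟩ := hS
    have := h W hW
    rw [← h0, mul_zero] at this ⊢
    exact this
  · have : b / c ≤ sInf S := le_csInf hS fun W hW => (div_le_iff₀ h0).2 (h W hW)
    exact (div_le_iff₀ h0).1 this

theorem VV_mem {a : ℝ → ℝ} {u s m : ℝ} (hs : 0 < s) (h : (WS a u s m).Nonempty) :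
    VV a u s m ∈ WS a u s m := by
  refine ⟨le_csInf h fun W hW => hW.1, fun x hx y hy => ?_⟩
  exact le_mul_sInf (mul_nonneg hs.le (hr_nonneg _)) h fun W hW => hW.2 x hx y hy

theorem DD_mem {a : ℝ → ℝ} {u s m : ℝ} (hs : 0 < s) (h : (ES a u s m).Nonempty) :
    DD a u s m ∈ ES a u s m := by
  refine ⟨le_csInf h fun W hW => hW.1, fun x hx => ⟨?_, ?_⟩⟩
  · exact le_mul_sInf (mul_nonneg hs.le (hr_nonneg _)) h fun W hW => (hW.2 x hx).1
  · exact le_mul_sInf (mul_nonneg hs.le (hr_nonneg _)) h fun W hW => (hW.2 x hx).2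

theorem VV_le {a : ℝ → ℝ} {u s m W : ℝ} (h : W ∈ WS a u s m) : VV a u s m ≤ W :=
  csInf_le ⟨0, fun _ hV => hV.1⟩ h

theorem DD_le {a : ℝ → ℝ} {u s m W : ℝ} (h : W ∈ ES a u s m) : DD a u s m ≤ W :=
  csInf_le ⟨0, fun _ hV => hV.1⟩ h

/-- the trivial bound -/
theorem triv {a : ℝ → ℝ} {u s m η : ℝ} (hs : 0 < s) (hη : 0 ≤ η)
    (h : ∀ x ∈ Icc u (u + s), |a x - m| ≤ η) {x y : ℝ} (hx : x ∈ Icc u (u + s))
    (hy : y ∈ Icc u (u + s)) : |∫ z in x..y, (a z - m)| ≤ η * (s * hr (|y - x| / s)) := by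
  have h1 : ‖∫ z in x..y, (a z - m)‖ ≤ η * |y - x| := by
    apply intervalIntegral.norm_integral_le_of_norm_le_const
    intro z hz
    rw [Real.norm_eq_abs]
    apply h
    have := uIoc_subset_uIcc hz
    exact ⟨(le_min hx.1 hy.1).trans this.1, this.2.trans (max_le hx.2 hy.2)⟩
  rw [Real.norm_eq_abs] at h1
  refine h1.trans ?_
  have h2 : |y - x| ≤ s := by
    rw [abs_le]
    constructor <;> linarith [hx.1, hx.2, hy.1, hy.2]
  have h3 : |y - x| / s ≤ hr (|y - x| / s) :=
    le_hr_self (by positivity) ((div_le_one hs).2 h2)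
  have h4 : |y - x| ≤ s * hr (|y - x| / s) := by
    calc |y - x| = s * (|y - x| / s) := by field_simp
      _ ≤ _ := by gcongr
  gcongr

theorem WS_mem {a : ℝ → ℝ} {u s m η : ℝ} (hs : 0 < s) (hη : 0 ≤ η)
    (h : ∀ x ∈ Icc u (u + s), |a x - m| ≤ η) : η ∈ WS a u s m :=
  ⟨hη, fun _ hx _ hy => triv hs hη h hx hy⟩

theorem ES_mem {a : ℝ → ℝ} {u s m η : ℝ} (hs : 0 < s) (hη : 0 ≤ η)
    (h : ∀ x ∈ Icc u (u + s), |a x - m| ≤ η) : η ∈ ES a u s m := by
  refine ⟨hη, fun x hx => ⟨?_, ?_⟩⟩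
  · have := triv hs hη h (left_mem_Icc.2 (by linarith)) hx
    rwa [abs_of_nonneg (by linarith [hx.1] : 0 ≤ x - u)] at this
  · have := triv hs hη h hx (right_mem_Icc.2 (by linarith))
    rwa [abs_of_nonneg (by linarith [hx.2] : 0 ≤ u + s - x)] at this

/-- the contraction factor `2 ^ (-3/4)` -/
noncomputable def kap : ℝ := hr 2 / 2

theorem kap_nonneg : 0 ≤ kap := div_nonneg (hr_nonneg _) (by norm_num)

theorem kap_sq : kap ^ 2 ≤ 3536 / 10000 := by
  have h1 : hr 2 ≤ 1189208 / 1000000 := hr_le (by norm_num) (by norm_num)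
  have h2 := hr_nonneg 2
  unfold kap
  nlinarith

theorem half_hr {s t : ℝ} (hs : 0 < s) (_ht : 0 ≤ t) : s / 2 * hr (t / (s / 2)) = kap * (s * hr (t / s)) := by
  have : t / (s / 2) = 2 * (t / s) := by field_simp
  rw [this, hr_mul (by norm_num)]
  unfold kap
  ring

/-- splitting of the integral with another constant -/
theorem int_shift {a : ℝ → ℝ} (ha : Continuous a) (x y m m' : ℝ) :
    ∫ z in x..y, (a z - m) = (∫ z in x..y, (a z - m')) + (m' - m) * (y - x) := by
  have h1 : ∀ c : ℝ, ∫ z in x..y, (a z - c) = (∫ z in x..y, a z) - c * (y - x) := by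
    intro c
    rw [intervalIntegral.integral_sub (ha.intervalIntegrable _ _) (by simp),
      intervalIntegral.integral_const, smul_eq_mul]
    ring
  rw [h1, h1]
  ring

/-- the recursion for the ends -/
theorem DD_rec {a : ℝ → ℝ} (ha : Continuous a) {u s m m1 m2 δ : ℝ} (hs : 0 < s) (hδ : 0 ≤ δ)
    (hm : ∫ z in u..(u + s), (a z - m) = 0) (h1 : |m1 - m| ≤ δ) (h2 : |m2 - m| ≤ δ)
    (e1 : (ES a u (s / 2) m1).Nonempty) (e2 : (ES a (u + s / 2) (s / 2) m2).Nonempty) :
    DD a u s m ≤ δ + kap * max (DD a u (s / 2) m1) (DD a (u + s / 2) (s / 2) m2) := by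
  have hs2 : 0 < s / 2 := by linarith
  obtain ⟨d10, d1⟩ := DD_mem hs2 e1
  obtain ⟨d20, d2⟩ := DD_mem hs2 e2
  set D1 := DD a u (s / 2) m1
  set D2 := DD a (u + s / 2) (s / 2) m2
  have hM1 : D1 ≤ max D1 D2 := le_max_left _ _
  have hM2 : D2 ≤ max D1 D2 := le_max_right _ _
  have hk := kap_nonneg
  have e : u + s / 2 + s / 2 = u + s := by ring
  rw [e] at d2
  -- the left part
  have hL : ∀ x ∈ Icc u (u + s / 2), |∫ z in u..x, (a z - m)| ≤
      (δ + kap * max D1 D2) * (s * hr ((x - u) / s)) := by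
    intro x hx
    have hxu : 0 ≤ x - u := by linarith [hx.1]
    have q1 := (d1 x hx).1
    rw [half_hr hs hxu] at q1
    have q2 : x - u ≤ s * hr ((x - u) / s) := by
      have : (x - u) / s ≤ hr ((x - u) / s) :=
        le_hr_self (by positivity) ((div_le_one hs).2 (by linarith [hx.2]))
      calc x - u = s * ((x - u) / s) := by field_simp
        _ ≤ _ := by gcongr
    have q3 : 0 ≤ s * hr ((x - u) / s) := mul_nonneg hs.le (hr_nonneg _)
    rw [int_shift ha u x m m1]
    calc |(∫ z in u..x, (a z - m1)) + (m1 - m) * (x - u)|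
        ≤ |∫ z in u..x, (a z - m1)| + |m1 - m| * (x - u) := by
          refine (abs_add_le _ _).trans ?_
          rw [abs_mul, abs_of_nonneg hxu]
      _ ≤ D1 * (kap * (s * hr ((x - u) / s))) + δ * (s * hr ((x - u) / s)) := by gcongr
      _ ≤ max D1 D2 * (kap * (s * hr ((x - u) / s))) + δ * (s * hr ((x - u) / s)) := by gcongr
      _ = _ := by ring
  have hR : ∀ x ∈ Icc (u + s / 2) (u + s), |∫ z in x..(u + s), (a z - m)| ≤
      (δ + kap * max D1 D2) * (s * hr ((u + s - x) / s)) := by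
    intro x hx
    have hxu : 0 ≤ u + s - x := by linarith [hx.2]
    have q1 := (d2 x hx).2
    rw [half_hr hs hxu] at q1
    have q2 : u + s - x ≤ s * hr ((u + s - x) / s) := by
      have : (u + s - x) / s ≤ hr ((u + s - x) / s) :=
        le_hr_self (by positivity) ((div_le_one hs).2 (by linarith [hx.1]))
      calc u + s - x = s * ((u + s - x) / s) := by field_simp
        _ ≤ _ := by gcongr
    have q3 : 0 ≤ s * hr ((u + s - x) / s) := mul_nonneg hs.le (hr_nonneg _)
    rw [int_shift ha x (u + s) m m2]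
    calc |(∫ z in x..(u + s), (a z - m2)) + (m2 - m) * (u + s - x)|
        ≤ |∫ z in x..(u + s), (a z - m2)| + |m2 - m| * (u + s - x) := by
          refine (abs_add_le _ _).trans ?_
          rw [abs_mul, abs_of_nonneg hxu]
      _ ≤ D2 * (kap * (s * hr ((u + s - x) / s))) + δ * (s * hr ((u + s - x) / s)) := by gcongr
      _ ≤ max D1 D2 * (kap * (s * hr ((u + s - x) / s))) + δ * (s * hr ((u + s - x) / s)) := by
          gcongr
      _ = _ := by ring
  have hsplit : ∀ x, ∫ z in u..x, (a z - m) = - ∫ z in x..(u + s), (a z - m) := by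
    intro x
    have hc : Continuous fun z => a z - m := ha.sub continuous_const
    have := intervalIntegral.integral_add_adjacent_intervals (μ := volume) (hc.intervalIntegrable u x)
      (hc.intervalIntegrable x (u + s))
    rw [hm] at this
    linarith
  have hc0 : 0 ≤ δ + kap * max D1 D2 := by
    have : 0 ≤ max D1 D2 := d10.trans hM1
    positivity
  apply DD_le
  refine ⟨hc0, fun x hx => ?_⟩
  rcases le_total x (u + s / 2) with hxm | hxm
  · have q := hL x ⟨hx.1, hxm⟩
    refine ⟨q, ?_⟩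
    have : |∫ z in x..(u + s), (a z - m)| = |∫ z in u..x, (a z - m)| := by
      rw [hsplit x, abs_neg]
    rw [this]
    refine q.trans ?_
    have : hr ((x - u) / s) ≤ hr ((u + s - x) / s) := hr_mono (by gcongr 1; linarith)
    gcongr
  · have q := hR x ⟨hxm, hx.2⟩
    refine ⟨?_, q⟩
    rw [hsplit x, abs_neg]
    refine q.trans ?_
    have : hr ((u + s - x) / s) ≤ hr ((x - u) / s) := hr_mono (by gcongr 1; linarith)
    gcongr

/-- the recursion for all intervals -/
theorem VV_rec {a : ℝ → ℝ} (ha : Continuous a) {u s m m1 m2 δ : ℝ} (hs : 0 < s) (hδ : 0 ≤ δ)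
    (h1 : |m1 - m| ≤ δ) (h2 : |m2 - m| ≤ δ)
    (e1 : (ES a u (s / 2) m1).Nonempty) (e2 : (ES a (u + s / 2) (s / 2) m2).Nonempty)
    (w1 : (WS a u (s / 2) m1).Nonempty) (w2 : (WS a (u + s / 2) (s / 2) m2).Nonempty) :
    VV a u s m ≤ δ + kap * max (max (VV a u (s / 2) m1) (2 * DD a u (s / 2) m1))
      (max (VV a (u + s / 2) (s / 2) m2) (2 * DD a (u + s / 2) (s / 2) m2)) := by
  have hs2 : 0 < s / 2 := by linarith
  obtain ⟨d10, d1⟩ := DD_mem hs2 e1
  obtain ⟨d20, d2⟩ := DD_mem hs2 e2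
  obtain ⟨v10, v1⟩ := VV_mem hs2 w1
  obtain ⟨v20, v2⟩ := VV_mem hs2 w2
  set D1 := DD a u (s / 2) m1
  set D2 := DD a (u + s / 2) (s / 2) m2
  set V1 := VV a u (s / 2) m1
  set V2 := VV a (u + s / 2) (s / 2) m2
  set X := max (max V1 (2 * D1)) (max V2 (2 * D2)) with hX
  have k1 : V1 ≤ X := (le_max_left _ _).trans (le_max_left _ _)
  have k2 : 2 * D1 ≤ X := (le_max_right _ _).trans (le_max_left _ _)
  have k3 : V2 ≤ X := (le_max_left _ _).trans (le_max_right _ _)
  have k4 : 2 * D2 ≤ X := (le_max_right _ _).trans (le_max_right _ _)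
  have hX0 : 0 ≤ X := v10.trans k1
  have hk := kap_nonneg
  have e : u + s / 2 + s / 2 = u + s := by ring
  rw [e] at d2 v2
  have hc0 : 0 ≤ δ + kap * X := by positivity
  have hlin : ∀ t, 0 ≤ t → t ≤ s → t ≤ s * hr (t / s) := by
    intro t ht hts
    have : t / s ≤ hr (t / s) := le_hr_self (by positivity) ((div_le_one hs).2 hts)
    calc t = s * (t / s) := by field_simp
      _ ≤ _ := by gcongr
  have main : ∀ x ∈ Icc u (u + s), ∀ y ∈ Icc u (u + s), x ≤ y →
      |∫ z in x..y, (a z - m)| ≤ (δ + kap * X) * (s * hr ((y - x) / s)) := by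
    intro x hx y hy hxy
    have hyx : 0 ≤ y - x := by linarith
    have q3 : 0 ≤ s * hr ((y - x) / s) := mul_nonneg hs.le (hr_nonneg _)
    have q2 : y - x ≤ s * hr ((y - x) / s) := hlin _ hyx (by linarith [hx.1, hy.2])
    rcases le_total y (u + s / 2) with hym | hym
    · have q1 := v1 x ⟨hx.1, hxy.trans hym⟩ y ⟨hy.1, hym⟩
      rw [abs_of_nonneg hyx, half_hr hs hyx] at q1
      rw [int_shift ha x y m m1]
      calc |(∫ z in x..y, (a z - m1)) + (m1 - m) * (y - x)|
          ≤ |∫ z in x..y, (a z - m1)| + |m1 - m| * (y - x) := by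
            refine (abs_add_le _ _).trans ?_
            rw [abs_mul, abs_of_nonneg hyx]
        _ ≤ V1 * (kap * (s * hr ((y - x) / s))) + δ * (s * hr ((y - x) / s)) := by gcongr
        _ ≤ X * (kap * (s * hr ((y - x) / s))) + δ * (s * hr ((y - x) / s)) := by gcongr
        _ = _ := by ring
    rcases le_total (u + s / 2) x with hxm | hxm
    · have q1 := v2 x ⟨hxm, hx.2⟩ y ⟨hym, hy.2⟩
      rw [abs_of_nonneg hyx, half_hr hs hyx] at q1
      rw [int_shift ha x y m m2]
      calc |(∫ z in x..y, (a z - m2)) + (m2 - m) * (y - x)|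
          ≤ |∫ z in x..y, (a z - m2)| + |m2 - m| * (y - x) := by
            refine (abs_add_le _ _).trans ?_
            rw [abs_mul, abs_of_nonneg hyx]
        _ ≤ V2 * (kap * (s * hr ((y - x) / s))) + δ * (s * hr ((y - x) / s)) := by gcongr
        _ ≤ X * (kap * (s * hr ((y - x) / s))) + δ * (s * hr ((y - x) / s)) := by gcongr
        _ = _ := by ring
    -- the middle point is between
    have hxM : 0 ≤ u + s / 2 - x := by linarith
    have hyM : 0 ≤ y - (u + s / 2) := by linarith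
    have hc : Continuous fun z => a z - m := ha.sub continuous_const
    have hsum := intervalIntegral.integral_add_adjacent_intervals (μ := volume)
      (hc.intervalIntegrable x (u + s / 2)) (hc.intervalIntegrable (u + s / 2) y)
    have p1 := (d1 x ⟨hx.1, hxm⟩).2
    rw [half_hr hs hxM] at p1
    have p2 := (d2 y ⟨hym, hy.2⟩).1
    rw [half_hr hs hyM] at p2
    have r1 : hr ((u + s / 2 - x) / s) ≤ hr ((y - x) / s) := hr_mono (by gcongr)
    have r2 : hr ((y - (u + s / 2)) / s) ≤ hr ((y - x) / s) := hr_mono (by gcongr 1; linarith)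
    rw [← hsum, int_shift ha x (u + s / 2) m m1, int_shift ha (u + s / 2) y m m2]
    have t1 : |(m1 - m) * (u + s / 2 - x)| ≤ δ * (u + s / 2 - x) := by
      rw [abs_mul, abs_of_nonneg hxM]
      gcongr
    have t2 : |(m2 - m) * (y - (u + s / 2))| ≤ δ * (y - (u + s / 2)) := by
      rw [abs_mul, abs_of_nonneg hyM]
      gcongr
    have s1 : D1 * (kap * (s * hr ((u + s / 2 - x) / s))) ≤
        X / 2 * (kap * (s * hr ((y - x) / s))) := by
      have : D1 ≤ X / 2 := by linarith
      have h0 := hr_nonneg ((u + s / 2 - x) / s)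
      gcongr
    have s2 : D2 * (kap * (s * hr ((y - (u + s / 2)) / s))) ≤
        X / 2 * (kap * (s * hr ((y - x) / s))) := by
      have : D2 ≤ X / 2 := by linarith
      have h0 := hr_nonneg ((y - (u + s / 2)) / s)
      gcongr
    calc _ ≤ |∫ z in x..(u + s / 2), (a z - m1)| + |(m1 - m) * (u + s / 2 - x)| +
          (|∫ z in (u + s / 2)..y, (a z - m2)| + |(m2 - m) * (y - (u + s / 2))|) :=
          (abs_add_le _ _).trans (add_le_add (abs_add_le _ _) (abs_add_le _ _))
      _ ≤ X / 2 * (kap * (s * hr ((y - x) / s))) + δ * (u + s / 2 - x) +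
          (X / 2 * (kap * (s * hr ((y - x) / s))) + δ * (y - (u + s / 2))) := by linarith
      _ = X * (kap * (s * hr ((y - x) / s))) + δ * (y - x) := by ring
      _ ≤ X * (kap * (s * hr ((y - x) / s))) + δ * (s * hr ((y - x) / s)) := by gcongr
      _ = _ := by ring
  apply VV_le
  refine ⟨hc0, fun x hx y hy => ?_⟩
  rcases le_total x y with hxy | hxy
  · rw [abs_of_nonneg (by linarith : 0 ≤ y - x)]
    exact main x hx y hy hxy
  · rw [intervalIntegral.integral_symm, abs_neg, abs_of_nonpos (by linarith : y - x ≤ 0), neg_sub]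
    exact main y hy x hx hxy

end Pool.Agent.H95.GS3
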