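import Mathlib
import Pool.Agent.H95.GS3.Hol

/-!
# GSC, section 3 of note 1871: (L1) for the cells of a dyadic forest

`VA a r h l k` is the Hoelder constant of the cell `k` of level `l`.
-/

set_option autoImplicit false
open Set Filter Topology MeasureTheory

namespace Pool.Agent.H95.GS3

open Pool.Agent.H66.GSC

theorem lev_pos {h : ℝ} (hh : 0 < h) (l : ℕ) : 0 < h / 2 ^ l := by positivity

theorem lev_succ (h : ℝ) (l : ℕ) : h / 2 ^ (l + 1) = h / 2 ^ l / 2 := by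
  rw [pow_succ, div_div]

theorem ce_even (r h : ℝ) (l k : ℕ) : ce r h (l + 1) (2 * k) = ce r h l k := by
  unfold ce
  rw [lev_succ]
  push_cast
  ring

theorem ce_odd (r h : ℝ) (l k : ℕ) : ce r h (l + 1) (2 * k + 1) = ce r h l k + h / 2 ^ l / 2 := by
  unfold ce
  rw [lev_succ]
  push_cast
  ring

theorem fa_mul {a : ℝ → ℝ} {r h : ℝ} (hh : 0 < h) (l k : ℕ) :
    ∫ z in (ce r h l k)..(ce r h l k + h / 2 ^ l), a z = fa a r h l k * (h / 2 ^ l) := by
  unfold fa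
  rw [div_mul_cancel₀]
  exact (lev_pos hh l).ne'

theorem fa_rec {a : ℝ → ℝ} (ha : Continuous a) {r h : ℝ} (hh : 0 < h) (l k : ℕ) :
    fa a r h l k = (fa a r h (l + 1) (2 * k) + fa a r h (l + 1) (2 * k + 1)) / 2 := by
  have h0 := lev_pos hh l
  have h1 := fa_mul (a := a) (r := r) hh l k
  have h2 := fa_mul (a := a) (r := r) hh (l + 1) (2 * k)
  have h3 := fa_mul (a := a) (r := r) hh (l + 1) (2 * k + 1)
  rw [ce_even, lev_succ] at h2
  rw [ce_odd, lev_succ] at h3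
  have h4 := intervalIntegral.integral_add_adjacent_intervals (μ := volume)
    (ha.intervalIntegrable (ce r h l k) (ce r h l k + h / 2 ^ l / 2))
    (ha.intervalIntegrable (ce r h l k + h / 2 ^ l / 2) (ce r h l k + h / 2 ^ l))
  rw [show ce r h l k + h / 2 ^ l / 2 + h / 2 ^ l / 2 = ce r h l k + h / 2 ^ l by ring] at h3
  rw [h2, h3, h1] at h4
  have : (fa a r h l k - (fa a r h (l + 1) (2 * k) + fa a r h (l + 1) (2 * k + 1)) / 2) *
      (h / 2 ^ l) = 0 := by linarith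
  rcases mul_eq_zero.1 this with h5 | h5
  · linarith
  · exact absurd h5 h0.ne'

theorem int_cell {a : ℝ → ℝ} (ha : Continuous a) {r h : ℝ} (hh : 0 < h) (l k : ℕ) :
    ∫ z in (ce r h l k)..(ce r h l k + h / 2 ^ l), (a z - fa a r h l k) = 0 := by
  rw [intervalIntegral.integral_sub (ha.intervalIntegrable _ _) (by simp),
    intervalIntegral.integral_const, fa_mul hh, smul_eq_mul]
  ring

/-- the mean is close to the values -/
theorem fa_near {a : ℝ → ℝ} (ha : Continuous a) {r h η : ℝ} (hh : 0 < h)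
    (hη : ∀ x y, |x - y| ≤ h → |a x - a y| ≤ η) (l k : ℕ) {x : ℝ}
    (hx : x ∈ Icc (ce r h l k) (ce r h l k + h / 2 ^ l)) : |a x - fa a r h l k| ≤ η := by
  have h0 := lev_pos hh l
  have hle : h / 2 ^ l ≤ h := div_le_self hh.le (one_le_pow₀ (by norm_num))
  have h1 : ‖∫ z in (ce r h l k)..(ce r h l k + h / 2 ^ l), (a x - a z)‖ ≤
      η * |ce r h l k + h / 2 ^ l - ce r h l k| := by
    apply intervalIntegral.norm_integral_le_of_norm_le_const
    intro z hz
    rw [uIoc_of_le (by linarith)] at hz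
    rw [Real.norm_eq_abs]
    apply hη
    rw [abs_le]
    constructor <;> linarith [hx.1, hx.2, hz.1, hz.2]
  rw [intervalIntegral.integral_sub (by simp) (ha.intervalIntegrable _ _),
    intervalIntegral.integral_const, fa_mul hh, smul_eq_mul, Real.norm_eq_abs] at h1
  rw [show ce r h l k + h / 2 ^ l - ce r h l k = h / 2 ^ l by ring, abs_of_pos h0,
    show h / 2 ^ l * a x - fa a r h l k * (h / 2 ^ l) = (a x - fa a r h l k) * (h / 2 ^ l) by ring,
    abs_mul, abs_of_pos h0] at h1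
  exact le_of_mul_le_mul_right h1 h0

/-- the Hoelder constant of the cell -/
noncomputable def VA (a : ℝ → ℝ) (r h : ℝ) (l k : ℕ) : ℝ :=
  VV a (ce r h l k) (h / 2 ^ l) (fa a r h l k)

/-- the Hoelder constant at the ends of the cell -/
noncomputable def DA (a : ℝ → ℝ) (r h : ℝ) (l k : ℕ) : ℝ :=
  DD a (ce r h l k) (h / 2 ^ l) (fa a r h l k)

section
variable {a : ℝ → ℝ} {r h η : ℝ}

theorem eta_nonneg (hh : 0 < h) (hη : ∀ x y, |x - y| ≤ h → |a x - a y| ≤ η) : 0 ≤ η :=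
  (abs_nonneg _).trans (hη 0 0 (by simpa using hh.le))

theorem WS_eta (ha : Continuous a) (hh : 0 < h) (hη : ∀ x y, |x - y| ≤ h → |a x - a y| ≤ η)
    (l k : ℕ) : η ∈ WS a (ce r h l k) (h / 2 ^ l) (fa a r h l k) :=
  WS_mem (lev_pos hh l) (eta_nonneg hh hη) fun _ hx => fa_near ha hh hη l k hx

theorem ES_eta (ha : Continuous a) (hh : 0 < h) (hη : ∀ x y, |x - y| ≤ h → |a x - a y| ≤ η)
    (l k : ℕ) : η ∈ ES a (ce r h l k) (h / 2 ^ l) (fa a r h l k) :=
  ES_mem (lev_pos hh l) (eta_nonneg hh hη) fun _ hx => fa_near ha hh hη l k hx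

theorem VA_nonneg (ha : Continuous a) (hh : 0 < h) (hη : ∀ x y, |x - y| ≤ h → |a x - a y| ≤ η)
    (l k : ℕ) : 0 ≤ VA a r h l k := (VV_mem (lev_pos hh l) ⟨η, WS_eta ha hh hη l k⟩).1

theorem DA_nonneg (ha : Continuous a) (hh : 0 < h) (hη : ∀ x y, |x - y| ≤ h → |a x - a y| ≤ η)
    (l k : ℕ) : 0 ≤ DA a r h l k := (DD_mem (lev_pos hh l) ⟨η, ES_eta ha hh hη l k⟩).1

theorem VA_le (ha : Continuous a) (hh : 0 < h) (hη : ∀ x y, |x - y| ≤ h → |a x - a y| ≤ η)
    (l k : ℕ) : VA a r h l k ≤ η := VV_le (WS_eta ha hh hη l k)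

theorem DA_le (ha : Continuous a) (hh : 0 < h) (hη : ∀ x y, |x - y| ≤ h → |a x - a y| ≤ η)
    (l k : ℕ) : DA a r h l k ≤ η := DD_le (ES_eta ha hh hη l k)

/-- the Hoelder condition on the cell -/
theorem hol_cell (ha : Continuous a) (hh : 0 < h) (hη : ∀ x y, |x - y| ≤ h → |a x - a y| ≤ η)
    (l k : ℕ) {x y : ℝ} (hx : x ∈ Icc (ce r h l k) (ce r h l k + h / 2 ^ l))
    (hy : y ∈ Icc (ce r h l k) (ce r h l k + h / 2 ^ l)) :
    |∫ z in x..y, (a z - fa a r h l k)| ≤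
      VA a r h l k * (h / 2 ^ l * hr (|y - x| / (h / 2 ^ l))) :=
  (VV_mem (lev_pos hh l) ⟨η, WS_eta ha hh hη l k⟩).2 x hx y hy

/-- the Haar coefficient -/
noncomputable def Hc (a : ℝ → ℝ) (r h : ℝ) (l k : ℕ) : ℝ :=
  |(fa a r h (l + 1) (2 * k) - fa a r h (l + 1) (2 * k + 1)) / 2|

theorem Hc_l (ha : Continuous a) (hh : 0 < h) (l k : ℕ) :
    |fa a r h (l + 1) (2 * k) - fa a r h l k| = Hc a r h l k := by
  rw [fa_rec ha hh l k, Hc]
  congr 1
  ring

theorem Hc_r (ha : Continuous a) (hh : 0 < h) (l k : ℕ) :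
    |fa a r h (l + 1) (2 * k + 1) - fa a r h l k| = Hc a r h l k := by
  rw [fa_rec ha hh l k, Hc, ← abs_neg]
  congr 1
  ring

theorem DA_rec (ha : Continuous a) (hh : 0 < h) (hη : ∀ x y, |x - y| ≤ h → |a x - a y| ≤ η)
    (l k : ℕ) : DA a r h l k ≤ Hc a r h l k +
      kap * max (DA a r h (l + 1) (2 * k)) (DA a r h (l + 1) (2 * k + 1)) := by
  have e1 := ES_eta (r := r) ha hh hη (l + 1) (2 * k)
  have e2 := ES_eta (r := r) ha hh hη (l + 1) (2 * k + 1)
  rw [ce_even, lev_succ] at e1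
  rw [ce_odd, lev_succ] at e2
  have := DD_rec ha (lev_pos hh l) (abs_nonneg _) (int_cell ha hh l k) (Hc_l ha hh l k).le
    (Hc_r ha hh l k).le ⟨η, e1⟩ ⟨η, e2⟩
  unfold DA
  rw [ce_even, ce_odd, lev_succ]
  exact this

theorem VA_rec (ha : Continuous a) (hh : 0 < h) (hη : ∀ x y, |x - y| ≤ h → |a x - a y| ≤ η)
    (l k : ℕ) : VA a r h l k ≤ Hc a r h l k +
      kap * max (max (VA a r h (l + 1) (2 * k)) (2 * DA a r h (l + 1) (2 * k)))
        (max (VA a r h (l + 1) (2 * k + 1)) (2 * DA a r h (l + 1) (2 * k + 1))) := by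
  have e1 := ES_eta (r := r) ha hh hη (l + 1) (2 * k)
  have e2 := ES_eta (r := r) ha hh hη (l + 1) (2 * k + 1)
  have w1 := WS_eta (r := r) ha hh hη (l + 1) (2 * k)
  have w2 := WS_eta (r := r) ha hh hη (l + 1) (2 * k + 1)
  rw [ce_even, lev_succ] at e1 w1
  rw [ce_odd, lev_succ] at e2 w2
  have := VV_rec ha (lev_pos hh l) (abs_nonneg _) (Hc_l ha hh l k).le
    (Hc_r ha hh l k).le ⟨η, e1⟩ ⟨η, e2⟩ ⟨η, w1⟩ ⟨η, w2⟩
  unfold VA DA
  rw [ce_even, ce_odd, lev_succ]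
  exact this

/-- the variance of the cell -/
theorem fa_var (ha : Continuous a) (hh : 0 < h) (l k : ℕ) :
    fa (fun z => a z ^ 2) r h l k - fa a r h l k ^ 2 =
      (∫ z in (ce r h l k)..(ce r h l k + h / 2 ^ l), (a z - fa a r h l k) ^ 2) / (h / 2 ^ l) := by
  have h0 := lev_pos hh l
  have h1 : ∀ z, (a z - fa a r h l k) ^ 2 =
      a z ^ 2 - (2 * fa a r h l k) * a z + fa a r h l k ^ 2 := by
    intro z
    ring
  have h2 : ∫ z in (ce r h l k)..(ce r h l k + h / 2 ^ l), (a z - fa a r h l k) ^ 2 =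
      fa (fun z => a z ^ 2) r h l k * (h / 2 ^ l) - fa a r h l k ^ 2 * (h / 2 ^ l) := by
    simp_rw [h1]
    rw [intervalIntegral.integral_add (Continuous.intervalIntegrable (by fun_prop) _ _) (by simp),
      intervalIntegral.integral_sub (Continuous.intervalIntegrable (by fun_prop) _ _)
        (Continuous.intervalIntegrable (by fun_prop) _ _),
      intervalIntegral.integral_const_mul, intervalIntegral.integral_const,
      fa_mul (a := fun z => a z ^ 2) hh, fa_mul (a := a) hh, smul_eq_mul]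
    ring
  rw [h2, ← sub_mul, mul_div_cancel_right₀ _ h0.ne']

theorem fa_var_nonneg (ha : Continuous a) (hh : 0 < h) (l k : ℕ) :
    fa a r h l k ^ 2 ≤ fa (fun z => a z ^ 2) r h l k := by
  have h0 := lev_pos hh l
  have h1 := fa_var (r := r) ha hh l k
  have h2 : 0 ≤ ∫ z in (ce r h l k)..(ce r h l k + h / 2 ^ l), (a z - fa a r h l k) ^ 2 :=
    intervalIntegral.integral_nonneg (by linarith) fun _ _ => sq_nonneg _
  have h3 := div_nonneg h2 h0.le
  linarith

theorem fa_var_le (ha : Continuous a) (hh : 0 < h) (hη : ∀ x y, |x - y| ≤ h → |a x - a y| ≤ η)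
    (l k : ℕ) : fa (fun z => a z ^ 2) r h l k - fa a r h l k ^ 2 ≤ η ^ 2 := by
  have h0 := lev_pos hh l
  rw [fa_var ha hh l k, div_le_iff₀ h0]
  have h1 : ‖∫ z in (ce r h l k)..(ce r h l k + h / 2 ^ l), (a z - fa a r h l k) ^ 2‖ ≤
      η ^ 2 * |ce r h l k + h / 2 ^ l - ce r h l k| := by
    apply intervalIntegral.norm_integral_le_of_norm_le_const
    intro z hz
    rw [uIoc_of_le (by linarith)] at hz
    have := fa_near (r := r) ha hh hη l k (x := z) ⟨hz.1.le, hz.2⟩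
    rw [Real.norm_eq_abs, abs_pow]
    gcongr
  rw [show ce r h l k + h / 2 ^ l - ce r h l k = h / 2 ^ l by ring, abs_of_pos h0] at h1
  exact (le_abs_self _).trans h1

/-- Bessel for the cells -/
theorem bes_cells (ha : Continuous a) (hh : 0 < h) (hη : ∀ x y, |x - y| ≤ h → |a x - a y| ≤ η)
    (K0 L : ℕ) :
    ∑ l ∈ Finset.range L, ∑ k ∈ Finset.range (K0 * 2 ^ l), (1 / 2 : ℝ) ^ l * Hc a r h l k ^ 2 ≤
      K0 * η ^ 2 := by
  have h1 := bes (f := fa a r h) (q := fa (fun z => a z ^ 2) r h) (fun l k => fa_rec ha hh l k)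
    (fun l k => fa_rec (by fun_prop) hh l k) (fun l k => fa_var_nonneg ha hh l k) K0 L
  have h2 : ∑ k ∈ Finset.range K0, (fa (fun z => a z ^ 2) r h 0 k - fa a r h 0 k ^ 2) ≤
      K0 * η ^ 2 := by
    calc _ ≤ ∑ k ∈ Finset.range K0, η ^ 2 :=
          Finset.sum_le_sum fun k _ => fa_var_le ha hh hη 0 k
      _ = K0 * η ^ 2 := by rw [Finset.sum_const, Finset.card_range, nsmul_eq_mul]
  refine le_trans (le_of_eq ?_) (h1.trans h2)
  refine Finset.sum_congr rfl fun l _ => Finset.sum_congr rfl fun k _ => ?_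
  rw [Hc, sq_abs]

/-- (L1) for the cells -/
theorem hol_sum (ha : Continuous a) (hh : 0 < h) (hη : ∀ x y, |x - y| ≤ h → |a x - a y| ≤ η)
    (K0 L : ℕ) :
    ∑ l ∈ Finset.range L, ∑ k ∈ Finset.range (K0 * 2 ^ l), (1 / 2 : ℝ) ^ l * VA a r h l k ^ 2 ≤
      900 * (K0 * η ^ 2) := by
  have h1 := l1 (Δ := Hc a r h) (D := DA a r h) (V := VA a r h) (κ := kap) (M := η ^ 2)
    (B := K0 * η ^ 2) (K0 := K0) (L := L) kap_nonneg kap_sq
    (fun l k => DA_nonneg ha hh hη l k) (fun l k => VA_nonneg ha hh hη l k)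
    (fun l k => abs_nonneg _)
    (fun l k => pow_le_pow_left₀ (DA_nonneg ha hh hη l k) (DA_le ha hh hη l k) 2)
    (fun l k => pow_le_pow_left₀ (VA_nonneg ha hh hη l k) (VA_le ha hh hη l k) 2)
    (fun l _ k _ => DA_rec ha hh hη l k) (fun l _ k _ => VA_rec ha hh hη l k)
    (bes_cells ha hh hη K0 L)
  linarith

end

end Pool.Agent.H95.GS3
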