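import Mathlib
import Pool.Agent.H95.GS3.HolA

/-!
# GSC, section 3 of note 1871: (L1), with the oscillation bound on an interval only
-/

set_option autoImplicit false
open Set Filter Topology MeasureTheory

namespace Pool.Agent.H95.GS3

open Pool.Agent.H66.GSC

/-- the projection on `[r, s]` -/
noncomputable def clp (r s x : ℝ) : ℝ := max (min x s) r

theorem clp_cont (r s : ℝ) : Continuous (clp r s) := by
  unfold clp
  fun_prop

theorem clp_mem {r s : ℝ} (h : r ≤ s) (x : ℝ) : clp r s x ∈ Icc r s :=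
  ⟨le_max_right _ _, max_le (min_le_right _ _) h⟩

theorem clp_eq {r s x : ℝ} (h : x ∈ Icc r s) : clp r s x = x := by
  unfold clp
  rw [min_eq_left h.2, max_eq_left h.1]

theorem clp_dist (r s x y : ℝ) : |clp r s x - clp r s y| ≤ |x - y| := by
  unfold clp
  refine (abs_max_sub_max_le_abs _ _ _).trans ?_
  refine (abs_min_sub_min_le_max _ _ _ _).trans ?_
  simp

theorem cell_sub {r h : ℝ} (hh : 0 < h) {K0 l k : ℕ} (hk : k < K0 * 2 ^ l) :
    r ≤ ce r h l k ∧ ce r h l k + h / 2 ^ l ≤ r + K0 * h := by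
  have h0 := lev_pos hh l
  unfold ce
  constructor
  · have : 0 ≤ (k : ℝ) * (h / 2 ^ l) := by positivity
    linarith
  · have h1 : (k : ℝ) + 1 ≤ K0 * 2 ^ l := by exact_mod_cast hk
    have h2 : ((k : ℝ) + 1) * (h / 2 ^ l) ≤ K0 * 2 ^ l * (h / 2 ^ l) := by gcongr
    have h3 : (K0 : ℝ) * 2 ^ l * (h / 2 ^ l) = K0 * h := by field_simp
    linarith

theorem hol0 {a : ℝ → ℝ} (ha : Continuous a) {r h η : ℝ} (hh : 0 < h) (K0 : ℕ)
    (hosc : ∀ x ∈ Icc r (r + K0 * h), ∀ y ∈ Icc r (r + K0 * h), |x - y| ≤ h → |a x - a y| ≤ η)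
    (L : ℕ) :
    ∃ D : ℕ → ℕ → ℝ, (∀ l k, k < K0 * 2 ^ l → 0 ≤ D l k ∧
      ∀ y z : ℝ, ce r h l k ≤ y → y ≤ z → z ≤ ce r h l k + h / 2 ^ l →
      |∫ x in y..z, (a x - fa a r h l k)| ≤ h / 2 ^ l * D l k * hr ((z - y) / (h / 2 ^ l))) ∧
      ∑ l ∈ Finset.range L, ∑ k ∈ Finset.range (K0 * 2 ^ l), (1 / 2 : ℝ) ^ l * D l k ^ 2 ≤
        900 * (K0 * η ^ 2) := by
  have hrs : r ≤ r + K0 * h := by
    have : 0 ≤ (K0 : ℝ) * h := by positivity
    linarith
  set c := clp r (r + K0 * h) with hc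
  set b : ℝ → ℝ := fun x => a (c x) with hb
  have hbc : Continuous b := ha.comp (clp_cont _ _)
  have hη : ∀ x y, |x - y| ≤ h → |b x - b y| ≤ η := fun x y hxy =>
    hosc _ (clp_mem hrs x) _ (clp_mem hrs y) ((clp_dist _ _ _ _).trans hxy)
  have hab : ∀ x ∈ Icc r (r + K0 * h), b x = a x := by
    intro x hx
    rw [hb]
    simp only
    rw [hc, clp_eq hx]
  refine ⟨VA b r h, fun l k hk => ⟨VA_nonneg hbc hh hη l k, fun y z hy hyz hz => ?_⟩,
    hol_sum hbc hh hη K0 L⟩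
  have h0 := lev_pos hh l
  obtain ⟨c1, c2⟩ := cell_sub (r := r) hh hk
  have hfa : fa a r h l k = fa b r h l k := by
    unfold fa
    congr 1
    apply intervalIntegral.integral_congr
    intro x hx
    rw [uIcc_of_le (by linarith)] at hx
    exact (hab x ⟨c1.trans hx.1, hx.2.trans c2⟩).symm
  have hint : ∫ x in y..z, (a x - fa a r h l k) = ∫ x in y..z, (b x - fa b r h l k) := by
    rw [hfa]
    apply intervalIntegral.integral_congr
    intro x hx
    rw [uIcc_of_le hyz] at hx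
    simp only
    rw [hab x ⟨c1.trans (hy.trans hx.1), (hx.2.trans hz).trans c2⟩]
  rw [hint]
  have := hol_cell hbc hh hη l k (x := y) (y := z) ⟨hy, hyz.trans hz⟩ ⟨hy.trans hyz, hz⟩
  rw [abs_of_nonneg (by linarith : 0 ≤ z - y)] at this
  calc _ ≤ _ := this
    _ = _ := by ring

end Pool.Agent.H95.GS3
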